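import Pool.Agent.Helper52_HN.Main

/-!
# Realcompact complements of points give bisequentiality (no normality needed)
-/

set_option autoImplicit false

open Set Filter Topology
open Pool.Agent.Helper78_Biseq Pool.Agent.Helper52_HN

namespace Pool.Agent.Helper67_RC

universe v

variable {X : Type v} [TopologicalSpace X]

/-- Let `X` be compact Hausdorff and let `X` minus the point `x` be realcompact for every point `x`.
Then `X` is bisequential. -/
theorem bisequential_of_realcompact_compl [CompactSpace X] [T2Space X]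
    (h : ∀ x : X, Realcompact ({x}ᶜ : Set X)) : Bisequential X := by
  intro x U hU
  by_cases hx : ({x} : Set X) ∈ U
  · exact ⟨fun _ => {x}, antitone_const, fun _ => hx, fun O hO =>
      ⟨0, singleton_subset_iff.2 (mem_of_mem_nhds hO)⟩⟩
  have hY : ({x}ᶜ : Set X) ∈ U := Ultrafilter.compl_mem_iff_notMem.2 hx
  refine seq_of_neg ?_
  by_contra hcon
  obtain ⟨ι, e, he⟩ := h x
  set V : Ultrafilter ({x}ᶜ : Set X) :=
    U.comap Subtype.val_injective (by rw [Subtype.range_coe]; exact hY) with hV
  have hVU : ∀ S : Set ({x}ᶜ : Set X), S ∈ V → Subtype.val '' S ∈ U := by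
    intro S hS
    rw [hV, Ultrafilter.mem_comap] at hS
    exact hS
  have hval : Tendsto (Subtype.val : ({x}ᶜ : Set X) → X) V U := by
    rw [hV, Ultrafilter.coe_comap]
    exact tendsto_comap
  have h1 : ∀ i, ∃ t : ℝ, Tendsto (fun z => e z i) V (𝓝 t) := by
    intro i
    have hc : Continuous fun z => e z i := (continuous_apply i).comp he.continuous
    have h2 : ∃ n : ℕ, {z | |e z i| ≤ n} ∈ V := by
      by_contra hn
      push Not at hn
      refine hcon ⟨fun n => Subtype.val '' {z | |e z i| ≤ (n : ℝ)}ᶜ, fun n =>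
        hVU _ (Ultrafilter.compl_mem_iff_notMem.2 (hn n)), ?_⟩
      rw [Set.disjoint_left]
      intro z hz hz2
      obtain ⟨n, hn2⟩ := exists_nat_gt |e ⟨z, hz⟩ i|
      have h3 := mem_iInter.1 hz2 n
      have h4 : IsOpen {w : ({x}ᶜ : Set X) | |e w i| < (n : ℝ)} :=
        isOpen_lt hc.abs continuous_const
      obtain ⟨O, hO, hOe⟩ := isOpen_induced_iff.1 h4
      have h5 : z ∈ O := by
        have : (⟨z, hz⟩ : ({x}ᶜ : Set X)) ∈ Subtype.val ⁻¹' O := by
          rw [hOe]
          exact hn2
        exact this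
      obtain ⟨w, hw, ⟨v, hv, hvw⟩⟩ := mem_closure_iff.1 h3 O hO h5
      have h6 : v ∈ Subtype.val ⁻¹' O := by
        rw [mem_preimage, hvw]
        exact hw
      rw [hOe] at h6
      have h7 : |e v i| < (n : ℝ) := h6
      exact hv h7.le
    obtain ⟨n, hn⟩ := h2
    obtain ⟨t, _, ht⟩ := (isCompact_Icc (a := -(n : ℝ)) (b := n)).ultrafilter_le_nhds
      (V.map fun z => e z i) (by
        have h8 : Tendsto (fun z => e z i) V (𝓟 (Icc (-(n : ℝ)) n)) := by
          rw [tendsto_principal]
          filter_upwards [hn] with z hz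
          exact abs_le.1 hz
        exact h8)
    exact ⟨t, ht⟩
  choose t ht using h1
  have h2 : Tendsto e V (𝓝 t) := tendsto_pi_nhds.2 ht
  have h3 : t ∈ range e := by
    rw [← he.isClosed_range.closure_eq]
    exact mem_closure_of_tendsto h2 (Eventually.of_forall fun z => mem_range_self z)
  obtain ⟨y, hy⟩ := h3
  have h4 : (V : Filter ({x}ᶜ : Set X)) ≤ 𝓝 y := by
    rw [he.isInducing.nhds_eq_comap, hy]
    exact tendsto_iff_comap.1 h2
  have h5 : Tendsto (Subtype.val : ({x}ᶜ : Set X) → X) V (𝓝 (y : X)) :=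
    continuous_subtype_val.continuousAt.tendsto.mono_left h4
  have h6 : Tendsto (Subtype.val : ({x}ᶜ : Set X) → X) V (𝓝 x) := hval.mono_right hU
  exact y.2 (tendsto_nhds_unique h5 h6)

/-- A hereditarily realcompact compact Hausdorff space is bisequential. -/
theorem bisequential_of_hereditarilyRealcompact' [CompactSpace X] [T2Space X]
    (h : HereditarilyRealcompact X) : Bisequential X :=
  bisequential_of_realcompact_compl fun _ => h _

end Pool.Agent.Helper67_RC
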